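import Pool.Agent.Helper71.TU.Top5

/-!
Polynomial tuning is not continuous in the outer polynomial: the negated form of Q1 for
`D = 4`, `k = 1`, `d = 2`, `P_2 = z ^ 2 - 2`.
-/

open Complex Set Filter Topology Metric Polynomial Pool.Tuning

namespace Pool.Agent.Results.MP_b30ed7_an.TuningDiscontinuous

/-- The negated form of Q1. -/
theorem result :
    -- the Julia set of `P_2` is a segment
    julia (X ^ 2 + C (-2)) = {z | z.im = 0 ∧ z.re ∈ Icc (-2 : ℝ) 2} ∧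
    -- every admissible pair has exactly one internal marking
    (∀ z : AdmPair 4 (-2), ∃ χ : ℂ → ℂ, IsMarking z.1.1.1 z.1.2 χ ∧
      ∀ χ' : ℂ → ℂ, IsMarking z.1.1.1 z.1.2 χ' → EqOn χ' χ (closedBall 0 1)) ∧
    -- the markings vary continuously
    (∀ (x : ℕ → AdmPair 4 (-2)) (y : AdmPair 4 (-2)), Tendsto x atTop (𝓝 y) →
      ∀ (χ : ℕ → ℂ → ℂ) (χ₀ : ℂ → ℂ), (∀ n, IsMarking (x n).1.1.1 (x n).1.2 (χ n)) →
        IsMarking y.1.1.1 y.1.2 χ₀ → TendstoLocallyUniformlyOn χ χ₀ atTop (ball 0 1)) ∧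
    -- there is a sequence along which every choice of tuned polynomials is discontinuous
    (∃ (x : ℕ → AdmPair 4 (-2)) (y : AdmPair 4 (-2)), Tendsto x atTop (𝓝 y) ∧
      ∀ Q : AdmPair 4 (-2) → Poly 4, (∀ z, Tuned z.1.1.1 z.1.2 (-2) (Q z).1) →
        ¬ Tendsto (fun n => MPoly.mk (Q (x n))) atTop (𝓝 (MPoly.mk (Q y)))) ∧
    -- so there is no continuous choice of tuned polynomials modulo affine conjugacy
    ¬ ∃ Q : AdmPair 4 (-2) → MPoly 4, Continuous Q ∧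
      ∀ z, ∃ P : Poly 4, Q z = MPoly.mk P ∧ Tuned z.1.1.1 z.1.2 (-2) P.1 :=
  ⟨Pool.TU.julia2, Pool.TU.adm_marking, Pool.TU.adm_marking_tendsto (by norm_num),
    Pool.TU.final, Pool.TU.final'⟩

end Pool.Agent.Results.MP_b30ed7_an.TuningDiscontinuous
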